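import Pool.Agent.H82.RP.TD

/-!
EW: almost every interval of length `R log n` contains an empty window (row EW of the board
rpw_modules, MP_76b9e7_nt).
-/

set_option autoImplicit false

open Finset Real ArithmeticFunction
open scoped Nat ArithmeticFunction.Moebius

namespace Pool.Agent.H89.RP

open Pool.Agent.H30.BV (NX)
open Pool.Agent.H31.MP (RS Rgh Pz Me Om ip)
open Pool.Agent.H82.RP

/-- the moment bound -/
theorem ew_mom (Ω Q B : Finset ℕ) (hQ : Q ⊆ Ω) (hB : B ⊆ Q) (R : ℕ) (hR : 1 ≤ R)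
    (T c : ℕ → ℕ → ℝ) (T0 A e C : ℝ) (hT0 : 0 < T0) (hA : 0 ≤ A) (he : 0 ≤ e) (hC : C ≤ e * R)
    (hT : ∀ i n, 0 ≤ T i n) (hc0 : ∀ i n, 0 ≤ c i n) (hΩ : (Ω.card : ℝ) ≤ A + 1)
    (h1 : ∀ i < R, (1 - e) * (A * T0) ≤ ∑ n ∈ Ω, T i n)
    (h2 : ∀ i < R, ∀ i' < R, i ≠ i' → ∑ n ∈ Ω, T i n * T i' n ≤ (1 + e) * (A * T0 ^ 2))
    (h3 : ∀ i < R, ∑ n ∈ Ω, T i n ^ 2 ≤ C * (A * T0 ^ 2))
    (h4 : ∀ i < R, ∑ n ∈ Q, T i n * c i n ≤ e * (A * T0))
    (hc : ∀ n ∈ B, ∀ i < R, 1 ≤ c i n) : (B.card : ℝ) ≤ 18 * e * A + 4 := by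
  have hRp : (0 : ℝ) < R := by exact_mod_cast hR
  have s1 : R * ((1 - e) * (A * T0)) ≤ ∑ n ∈ Ω, ∑ i ∈ range R, T i n := by
    rw [sum_comm]
    calc (R : ℝ) * ((1 - e) * (A * T0)) = ∑ _i ∈ range R, (1 - e) * (A * T0) := by
          rw [sum_const, card_range, nsmul_eq_mul]
      _ ≤ _ := sum_le_sum fun i hi => h1 i (mem_range.1 hi)
  have s4 : ∑ n ∈ Q, ∑ i ∈ range R, T i n * c i n ≤ R * (e * (A * T0)) := by
    rw [sum_comm]
    calc _ ≤ ∑ _i ∈ range R, e * (A * T0) := sum_le_sum fun i hi => h4 i (mem_range.1 hi)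
      _ = _ := by rw [sum_const, card_range, nsmul_eq_mul]
  have s2 : ∑ n ∈ Ω, (∑ i ∈ range R, T i n) ^ 2 ≤
      R * (R * ((1 + e) * (A * T0 ^ 2)) + C * (A * T0 ^ 2)) := by
    have e1 : ∑ n ∈ Ω, (∑ i ∈ range R, T i n) ^ 2 =
        ∑ i ∈ range R, ∑ i' ∈ range R, ∑ n ∈ Ω, T i n * T i' n := by
      simp only [sq, sum_mul_sum]
      rw [sum_comm]
      refine sum_congr rfl fun i _ => ?_
      rw [sum_comm]
    rw [e1]
    have e2 : ∀ i ∈ range R, ∑ i' ∈ range R, ∑ n ∈ Ω, T i n * T i' n ≤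
        R * ((1 + e) * (A * T0 ^ 2)) + C * (A * T0 ^ 2) := by
      intro i hi
      have hi' := mem_range.1 hi
      rw [← sum_erase_add _ _ hi]
      have e3 : ∑ i' ∈ (range R).erase i, ∑ n ∈ Ω, T i n * T i' n ≤
          R * ((1 + e) * (A * T0 ^ 2)) := by
        calc _ ≤ ∑ _i' ∈ (range R).erase i, (1 + e) * (A * T0 ^ 2) :=
              sum_le_sum fun i' h' => h2 i hi' i' (mem_range.1 (mem_of_mem_erase h'))
                (ne_of_mem_erase h').symm
          _ ≤ ∑ _i' ∈ range R, (1 + e) * (A * T0 ^ 2) :=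
              sum_le_sum_of_subset_of_nonneg (erase_subset _ _) (fun _ _ _ => by positivity)
          _ = _ := by rw [sum_const, card_range, nsmul_eq_mul]
      have e4 : ∑ n ∈ Ω, T i n * T i n ≤ C * (A * T0 ^ 2) := by
        refine le_trans (le_of_eq ?_) (h3 i hi')
        exact sum_congr rfl fun n _ => (sq _).symm
      exact add_le_add e3 e4
    calc _ ≤ ∑ _i ∈ range R, (R * ((1 + e) * (A * T0 ^ 2)) + C * (A * T0 ^ 2)) := sum_le_sum e2
      _ = _ := by rw [sum_const, card_range, nsmul_eq_mul]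
  have hc1 : (0 : ℝ) < R * T0 := by positivity
  have key : ∀ n ∈ B, 1 ≤ 2 * ((∑ i ∈ range R, T i n * c i n) / (R * T0)) +
      4 * ((∑ i ∈ range R, T i n) / (R * T0) - 1) ^ 2 := by
    intro n hn
    have hle : ∑ i ∈ range R, T i n ≤ ∑ i ∈ range R, T i n * c i n :=
      sum_le_sum fun i hi => le_mul_of_one_le_right (hT i n) (hc n hn i (mem_range.1 hi))
    have hle' := div_le_div_of_nonneg_right hle hc1.le
    nlinarith [sq_nonneg ((∑ i ∈ range R, T i n) / (R * T0) - 3 / 4)]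
  have t1 : (B.card : ℝ) ≤ ∑ n ∈ B, (2 * ((∑ i ∈ range R, T i n * c i n) / (R * T0)) +
      4 * ((∑ i ∈ range R, T i n) / (R * T0) - 1) ^ 2) := by
    rw [← nsmul_one, ← sum_const]
    exact sum_le_sum key
  rw [sum_add_distrib, ← mul_sum, ← mul_sum] at t1
  have t2 : ∑ n ∈ B, (∑ i ∈ range R, T i n * c i n) / (R * T0) ≤ e * A := by
    calc _ ≤ ∑ n ∈ Q, (∑ i ∈ range R, T i n * c i n) / (R * T0) :=
          sum_le_sum_of_subset_of_nonneg hB fun n _ _ =>
            div_nonneg (sum_nonneg fun i _ => mul_nonneg (hT i n) (hc0 i n)) hc1.le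
      _ = (∑ n ∈ Q, ∑ i ∈ range R, T i n * c i n) / (R * T0) := (sum_div _ _ _).symm
      _ ≤ _ := by
        rw [div_le_iff₀ hc1]
        refine s4.trans (le_of_eq ?_)
        ring
  have t3 : ∑ n ∈ B, ((∑ i ∈ range R, T i n) / (R * T0) - 1) ^ 2 ≤ 4 * e * A + 1 := by
    calc _ ≤ ∑ n ∈ Ω, ((∑ i ∈ range R, T i n) / (R * T0) - 1) ^ 2 :=
          sum_le_sum_of_subset_of_nonneg (hB.trans hQ) fun n _ _ => sq_nonneg _
      _ = (∑ n ∈ Ω, (∑ i ∈ range R, T i n) ^ 2) / (R * T0) ^ 2 -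
          2 * ((∑ n ∈ Ω, ∑ i ∈ range R, T i n) / (R * T0)) + Ω.card := by
        have hcard : (Ω.card : ℝ) = ∑ _n ∈ Ω, (1 : ℝ) := by simp
        rw [sum_div, sum_div, mul_sum, ← sum_sub_distrib, hcard, ← sum_add_distrib]
        refine sum_congr rfl fun n _ => ?_
        rw [← div_pow]
        ring
      _ ≤ 4 * e * A + 1 := by
        have u1 : (∑ n ∈ Ω, (∑ i ∈ range R, T i n) ^ 2) / (R * T0) ^ 2 ≤ (1 + 2 * e) * A := by
          rw [div_le_iff₀ (by positivity)]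
          refine s2.trans ?_
          have : C * (A * T0 ^ 2) ≤ e * R * (A * T0 ^ 2) :=
            mul_le_mul_of_nonneg_right hC (by positivity)
          calc R * (R * ((1 + e) * (A * T0 ^ 2)) + C * (A * T0 ^ 2)) ≤
              R * (R * ((1 + e) * (A * T0 ^ 2)) + e * R * (A * T0 ^ 2)) :=
                mul_le_mul_of_nonneg_left (by linarith) hRp.le
            _ = _ := by ring
        have u2 : (1 - e) * A ≤ (∑ n ∈ Ω, ∑ i ∈ range R, T i n) / (R * T0) := by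
          rw [le_div_iff₀ hc1]
          refine le_trans (le_of_eq ?_) s1
          ring
        linarith
  linarith

theorem ew_card (X : ℝ) (y₀ : ℕ) : ((Om X y₀).card : ℝ) ≤ NX X / primorial y₀ + 1 := by
  have hW : 0 < primorial y₀ := primorial_pos y₀
  have h1 : Om X y₀ ⊆ (range (NX X / primorial y₀ + 1)).image (fun t => primorial y₀ * t + 1) := by
    intro n hn
    unfold Om at hn
    rw [mem_filter, mem_Icc] at hn
    obtain ⟨⟨h1, h2⟩, h3⟩ := hn
    obtain ⟨t, ht⟩ := (Nat.modEq_iff_dvd' h1).1 h3.symm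
    rw [mem_image]
    refine ⟨t, ?_, by omega⟩
    rw [mem_range, Nat.lt_succ_iff, Nat.le_div_iff_mul_le hW, mul_comm]
    omega
  have h2 : (Om X y₀).card ≤ NX X / primorial y₀ + 1 := by
    refine (card_le_card h1).trans (card_image_le.trans ?_)
    rw [card_range]
  calc ((Om X y₀).card : ℝ) ≤ ((NX X / primorial y₀ + 1 : ℕ) : ℝ) := by exact_mod_cast h2
    _ = ((NX X / primorial y₀ : ℕ) : ℝ) + 1 := by push_cast; ring
    _ ≤ _ := by
      have := @Nat.cast_div_le ℝ _ _ _ (NX X) (primorial y₀)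
      linarith

/-- the least integer `≥ k` which is `1` modulo `W` -/
def ewf (W k : ℕ) : ℕ := W * ((k - 1 + (W - 1)) / W) + 1

theorem ewf_spec (W k : ℕ) (hW : 0 < W) (hk : 1 ≤ k) : k ≤ ewf W k ∧ ewf W k < k + W := by
  unfold ewf
  have h1 := Nat.mul_div_le (k - 1 + (W - 1)) W
  have h2 := Nat.lt_mul_div_succ (k - 1 + (W - 1)) hW
  rw [Nat.mul_add, Nat.mul_one] at h2
  constructor <;> omega

theorem ewf_mod (W k : ℕ) : ewf W k ≡ 1 [MOD W] := by
  unfold ewf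
  have : W * ((k - 1 + (W - 1)) / W) + 1 ≡ 0 + 1 [MOD W] :=
    Nat.ModEq.add_right 1 ((Nat.modEq_zero_iff_dvd).2 (dvd_mul_right _ _))
  rwa [zero_add] at this

theorem ew_count (n W : ℕ) (hW : 0 < W) (S B : Finset ℕ) (hS : ∀ k ∈ S, 1 ≤ k)
    (h : ∀ k ∈ S, ewf W k ∉ B → (k : ℝ) ≤ √n) : (S.card : ℝ) ≤ √n + W * B.card := by
  classical
  have h1 : S ⊆ Icc 1 ⌊√(n : ℝ)⌋₊ ∪ S.filter (fun k => ewf W k ∈ B) := by
    intro k hk
    by_cases hB : ewf W k ∈ B
    · exact mem_union_right _ (mem_filter.2 ⟨hk, hB⟩)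
    · exact mem_union_left _ (mem_Icc.2 ⟨hS k hk, Nat.le_floor (h k hk hB)⟩)
  have h2 : (S.filter (fun k => ewf W k ∈ B)).card ≤ W * B.card := by
    apply card_le_mul_card_image_of_maps_to (f := ewf W) (fun k hk => (mem_filter.1 hk).2)
    intro b _
    have h3 : (filter (fun k => ewf W k = b) (S.filter (fun k => ewf W k ∈ B))) ⊆
        Icc (b + 1 - W) b := by
      intro k hk
      rw [mem_filter, mem_filter] at hk
      obtain ⟨⟨hk1, -⟩, hk2⟩ := hk
      have h4 := ewf_spec W k hW (hS k hk1)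
      rw [mem_Icc]
      omega
    refine (card_le_card h3).trans ?_
    rw [Nat.card_Icc]
    omega
  have h3 : S.card ≤ ⌊√(n : ℝ)⌋₊ + W * B.card := by
    refine (card_le_card h1).trans ((card_union_le _ _).trans ?_)
    rw [Nat.card_Icc]
    omega
  calc (S.card : ℝ) ≤ ((⌊√(n : ℝ)⌋₊ + W * B.card : ℕ) : ℝ) := by exact_mod_cast h3
    _ = (⌊√(n : ℝ)⌋₊ : ℝ) + W * B.card := by push_cast; ring
    _ ≤ _ := by
      have := Nat.floor_le (Real.sqrt_nonneg (n : ℝ))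
      linarith

theorem ew_zero (lam : ℝ) (hlam : 0 < lam) (n k' m : ℕ) (hk' : 1 ≤ k')
    (hn : 2 * lam + 3 ≤ Real.log n) (h4 : (k' : ℝ) ≤ 4 * n)
    (hm : m = ⌊(lam + 1) * Real.log n⌋₊) (hp : ∀ e < m, ¬ (k' + e).Prime) : XL lam k' = 0 := by
  have hk0 : (0 : ℝ) < k' := by exact_mod_cast hk'
  have hn0 : (0 : ℝ) < n := by linarith
  have hlk : 0 ≤ Real.log k' := Real.log_nonneg (by exact_mod_cast hk')
  have hl1 : Real.log k' ≤ Real.log 4 + Real.log n := by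
    rw [← Real.log_mul (by norm_num) hn0.ne']
    exact Real.log_le_log hk0 h4
  have hl4 : Real.log 4 ≤ 2 := by
    have h1 : (4 : ℝ) = 2 ^ 2 := by norm_num
    rw [h1, Real.log_pow]
    have := Real.log_two_lt_d9
    push_cast
    linarith
  have hfl : (⌊lam * Real.log k'⌋₊ : ℝ) ≤ lam * Real.log k' := Nat.floor_le (by positivity)
  have hle : 2 + ⌊lam * Real.log k'⌋₊ ≤ m := by
    rw [hm]
    apply Nat.le_floor
    push_cast
    have h1 : lam * Real.log k' ≤ lam * (2 + Real.log n) :=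
      mul_le_mul_of_nonneg_left (by linarith) hlam.le
    nlinarith
  unfold XL
  rw [card_eq_zero, filter_eq_empty_iff]
  intro p hp1
  rw [mem_Icc] at hp1
  have h1 := hp (p - k') (by omega)
  rwa [Nat.add_sub_cancel' hp1.1] at h1

theorem pf_EW (h1 : T_MOM) : T_EW := by
  classical
  intro lam ε hlam hε
  obtain ⟨e, he0, he1, heε⟩ : ∃ e : ℝ, 0 < e ∧ e ≤ 1 ∧ 1000 * e ≤ ε := by
    refine ⟨min ε 1 / 1000, by positivity, ?_, ?_⟩
    · have := min_le_right ε 1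
      linarith
    · have := min_le_left ε 1
      linarith
  obtain ⟨y₀, C, hy, hC, hM⟩ := h1 (lam + 1) e (by linarith) he0 he1
  obtain ⟨R', hR'⟩ : ∃ R' : ℕ, R' = ⌈C / e⌉₊ + 1 := ⟨_, rfl⟩
  have hCR : C ≤ e * R' := by
    have h2 : C / e ≤ R' := by
      refine (Nat.le_ceil (C / e)).trans ?_
      rw [hR']
      exact_mod_cast Nat.le_succ _
    rw [div_le_iff₀ he0] at h2
    linarith
  obtain ⟨Z₀, hZ⟩ := hM R'
  obtain ⟨W, hWd⟩ : ∃ W, W = primorial y₀ := ⟨_, rfl⟩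
  have hW : 0 < W := hWd ▸ primorial_pos y₀
  obtain ⟨R, hR⟩ : ∃ R : ℝ, R = (lam + 1) * R' + 1 := ⟨_, rfl⟩
  have hRp : 0 < R := by rw [hR]; positivity
  refine ⟨R, hRp, ?_⟩
  have hlogt : Filter.Tendsto (fun n : ℕ => Real.log (n : ℝ)) Filter.atTop Filter.atTop :=
    Real.tendsto_log_atTop.comp tendsto_natCast_atTop_atTop
  have hsqt : Filter.Tendsto (fun n : ℕ => √(n : ℝ)) Filter.atTop Filter.atTop :=
    Real.tendsto_sqrt_atTop.comp tendsto_natCast_atTop_atTop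
  have hnt : Filter.Tendsto (fun n : ℕ => (n : ℝ)) Filter.atTop Filter.atTop :=
    tendsto_natCast_atTop_atTop
  have hsmall : ∀ᶠ n : ℕ in Filter.atTop, R * Real.log n ≤ 2 * n := by
    have h2 := (Real.isLittleO_log_id_atTop.comp_tendsto hnt).def (c := 2 / R) (by positivity)
    filter_upwards [h2] with n hn
    simp only [Function.comp_apply, id_eq, Real.norm_eq_abs, Nat.abs_cast] at hn
    have h3 := (le_abs_self _).trans hn
    calc R * Real.log n ≤ R * (2 / R * n) := mul_le_mul_of_nonneg_left h3 hRp.le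
      _ = 2 * n := by field_simp
  have ev : ∀ᶠ n : ℕ in Filter.atTop, Z₀ ≤ n ∧ (W : ℝ) ≤ Real.log n ∧
      2 * lam + 3 ≤ Real.log n ∧ R * Real.log n ≤ 2 * n ∧ 4 / ε ≤ √(n : ℝ) ∧
      16 * W / ε ≤ n ∧ (W : ℝ) ≤ n := by
    filter_upwards [hnt.eventually_ge_atTop Z₀, hlogt.eventually_ge_atTop (W : ℝ),
      hlogt.eventually_ge_atTop (2 * lam + 3), hsmall, hsqt.eventually_ge_atTop (4 / ε),
      hnt.eventually_ge_atTop (16 * W / ε), hnt.eventually_ge_atTop (W : ℝ)]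
      with n a1 a2 a3 a4 a5 a6 a7
    exact ⟨a1, a2, a3, a4, a5, a6, a7⟩
  obtain ⟨n₀, hn₀⟩ := Filter.eventually_atTop.1 ev
  refine ⟨n₀, fun n hn => ?_⟩
  obtain ⟨a1, a2, a3, a4, a5, a6, a7⟩ := hn₀ n hn
  have hWn : W ≤ n := by exact_mod_cast a7
  have hN : NX (n : ℝ) = 3 * n := by
    unfold NX
    have : (3 : ℝ) * n = ((3 * n : ℕ) : ℝ) := by push_cast; ring
    rw [this, Nat.ceil_natCast]
  obtain ⟨T0, T, hT0, hTn, m1, m2, m3, m4⟩ := hZ n a1
  obtain ⟨m, hm⟩ : ∃ m : ℕ, m = ⌊(lam + 1) * Real.log n⌋₊ := ⟨_, rfl⟩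
  rw [← hm, ← hWd] at m4
  rw [← hWd] at m1 m2 m3
  obtain ⟨A, hA⟩ : ∃ A : ℝ, A = (NX (n : ℝ) : ℝ) / (W : ℝ) := ⟨_, rfl⟩
  rw [← hA] at m1 m2 m3 m4
  have hA0 : 0 ≤ A := by rw [hA]; positivity
  have hWA : W * A = 3 * n := by
    rw [hA, hN]
    have : (W : ℝ) ≠ 0 := by exact_mod_cast hW.ne'
    field_simp
    push_cast
    ring
  obtain ⟨c, hc⟩ : ∃ c : ℕ → ℕ → ℝ, c = fun i n' =>
    (((range m).filter (fun e => (n' + (i * m + e)).Prime)).card : ℝ) := ⟨_, rfl⟩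
  obtain ⟨Q, hQ⟩ : ∃ Q, Q = (Om (n : ℝ) y₀).filter (fun n' : ℕ => √(n : ℝ) < (n' : ℝ)) :=
    ⟨_, rfl⟩
  obtain ⟨B, hB⟩ : ∃ B, B = Q.filter (fun n' => ∀ i < R', 1 ≤ c i n') := ⟨_, rfl⟩
  have hBc : (B.card : ℝ) ≤ 18 * e * A + 4 := by
    refine ew_mom (Om (n : ℝ) y₀) Q B (hQ ▸ filter_subset _ _) (hB ▸ filter_subset _ _) R'
      (by omega) T c T0 A e C hT0 hA0 he0.le hCR hTn ?_ ?_ (fun i hi => (m1 i hi).1) m2 m3 ?_ ?_
    · intro i n'
      rw [hc]
      positivity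
    · have := ew_card (n : ℝ) y₀
      rwa [← hWd, ← hA] at this
    · intro i hi
      have := m4 i hi
      rw [hQ, hc]
      exact this
    · intro n' hn'
      rw [hB, mem_filter] at hn'
      exact hn'.2
  have hcount := ew_count n W hW
    ((Icc 1 n).filter (fun k : ℕ => ∀ m : ℕ, k ≤ m → (m : ℝ) ≤ k + R * Real.log n →
      XL lam m ≠ 0)) B (fun k hk => (mem_Icc.1 (mem_filter.1 hk).1).1) (by
    intro k hk hkB
    rw [mem_filter, mem_Icc] at hk
    obtain ⟨⟨hk1, hk2⟩, hk3⟩ := hk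
    obtain ⟨f1, f2⟩ := ewf_spec W k hW hk1
    have hOm : ewf W k ∈ Om (n : ℝ) y₀ := by
      unfold Om
      rw [mem_filter, mem_Icc, hN, ← hWd]
      exact ⟨by omega, ewf_mod W k⟩
    by_contra hlt
    rw [not_le] at hlt
    have f3 : √(n : ℝ) < (ewf W k : ℝ) := hlt.trans_le (by exact_mod_cast f1)
    have hQm : ewf W k ∈ Q := by
      rw [hQ, mem_filter]
      exact ⟨hOm, f3⟩
    have hex : ∃ i < R', c i (ewf W k) < 1 := by
      by_contra hno
      push Not at hno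
      exact hkB (by rw [hB, mem_filter]; exact ⟨hQm, hno⟩)
    obtain ⟨i, hi, hci⟩ := hex
    rw [hc] at hci
    have hci2 : (((range m).filter (fun e => (ewf W k + (i * m + e)).Prime)).card : ℝ) < 1 := hci
    have hc0 : ((range m).filter (fun e => (ewf W k + (i * m + e)).Prime)).card = 0 := by
      have : ((range m).filter (fun e => (ewf W k + (i * m + e)).Prime)).card < 1 := by
        exact_mod_cast hci2
      omega
    rw [card_eq_zero, filter_eq_empty_iff] at hc0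
    have hmle : (m : ℝ) ≤ (lam + 1) * Real.log n := by
      rw [hm]
      exact Nat.floor_le (mul_nonneg (by linarith) (by linarith))
    have him : ((i * m : ℕ) : ℝ) ≤ R' * ((lam + 1) * Real.log n) := by
      push_cast
      exact mul_le_mul (by exact_mod_cast hi.le) hmle (Nat.cast_nonneg _) (Nat.cast_nonneg _)
    have hfk : (ewf W k : ℝ) ≤ k + W := by exact_mod_cast f2.le
    have hk' : ((ewf W k + i * m : ℕ) : ℝ) ≤ k + R * Real.log n := by
      have e1 : R * Real.log n = R' * ((lam + 1) * Real.log n) + Real.log n := by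
        rw [hR]; ring
      rw [e1, Nat.cast_add]
      linarith
    have hkn : (k : ℝ) ≤ n := by exact_mod_cast hk2
    refine hk3 (ewf W k + i * m) (by omega) hk' (ew_zero lam hlam n _ m (by omega) a3 ?_ hm ?_)
    · have : (0 : ℝ) ≤ n := Nat.cast_nonneg n
      linarith
    · intro e he
      have := hc0 (mem_range.2 he)
      rwa [← add_assoc] at this)
  have hs1 : √(n : ℝ) ≤ ε / 4 * n := by
    have h2 : √(n : ℝ) * √(n : ℝ) = n := Real.mul_self_sqrt (Nat.cast_nonneg n)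
    have h3 : 4 ≤ √(n : ℝ) * ε := by rwa [div_le_iff₀ hε] at a5
    nlinarith [Real.sqrt_nonneg (n : ℝ)]
  have hs2 : 16 * (W : ℝ) ≤ n * ε := by rwa [div_le_iff₀ hε] at a6
  have hn0 : (0 : ℝ) ≤ n := Nat.cast_nonneg n
  have hs3 : (W : ℝ) * B.card ≤ 54 * e * n + 4 * W := by
    calc (W : ℝ) * B.card ≤ W * (18 * e * A + 4) :=
          mul_le_mul_of_nonneg_left hBc (Nat.cast_nonneg _)
      _ = 18 * e * (W * A) + 4 * W := by ring
      _ = _ := by rw [hWA]; ring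
  have hs4 : 54 * e * n ≤ ε / 4 * n := by
    apply mul_le_mul_of_nonneg_right _ hn0
    linarith
  refine le_trans ?_ (le_trans hcount ?_)
  · apply le_of_eq
    congr
  · nlinarith

end Pool.Agent.H89.RP
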