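import Pool.Agent.H82.RP.TA

/-!
IXX: orthogonal weights (row IXX of the board rpw_modules, MP_76b9e7_nt).
-/

set_option autoImplicit false

open Finset Real ArithmeticFunction
open scoped Nat ArithmeticFunction.Moebius

namespace Pool.Agent.H89.RP

open Pool.Agent.H30.BV (NX As Er Sad qj PZ lv nl)
open Pool.Agent.H31.MP (RS Rgh Pz Me Om Omr Wt Lam QF V1 nu dvh)
open Pool.Agent.H82.RP

variable {I : Type} [Fintype I] [DecidableEq I]

theorem ixx_QB (z Y s : ℝ) (l l' : (I → ℕ) → ℝ) :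
    QB z Y (fun d => l d + s * l' d) (fun d => l d + s * l' d) =
      QB z Y l l + s * (QB z Y l l' + QB z Y l' l) + s ^ 2 * QB z Y l' l' := by
  unfold QB
  simp only [mul_add, mul_sum, ← sum_add_distrib]
  refine sum_congr rfl fun d _ => sum_congr rfl fun e _ => ?_
  ring

theorem ixx_comm (z Y : ℝ) (l l' : (I → ℕ) → ℝ) : QB z Y l' l = QB z Y l l' := by
  unfold QB
  rw [sum_comm]
  refine sum_congr rfl fun d _ => sum_congr rfl fun e _ => ?_
  rw [mul_comm (l' e) (l d)]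
  congr 1
  exact prod_congr rfl fun i _ => by rw [Nat.lcm_comm]

theorem ixx_LG (z Y s : ℝ) (l l' : (I → ℕ) → ℝ) (P : I → ℕ) (n : ℕ) :
    LG z Y (fun d => l d + s * l' d) P n = LG z Y l P n + s * LG z Y l' P n := by
  unfold LG
  rw [mul_sum, ← sum_add_distrib]
  refine sum_congr rfl fun d _ => ?_
  split_ifs
  · rfl
  · ring

theorem ixx_WG (U : Finset I) (z Y C s : ℝ) (l l' : (I → ℕ) → ℝ) (hs : |s| = 1)
    (h : WG U z Y C l) (h' : WG U z Y C l') : WG U z Y (2 * C) (fun d => l d + s * l' d) := by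
  constructor
  · intro d hd
    by_cases h0 : l d = 0
    · have h1 : l' d ≠ 0 := by
        intro h1
        apply hd
        rw [h0, h1, mul_zero, add_zero]
      exact h'.supp d h1
    · exact h.supp d h0
  · intro d
    calc |l d + s * l' d| ≤ |l d| + |s * l' d| := abs_add_le _ _
      _ = |l d| + |l' d| := by rw [abs_mul, hs, one_mul]
      _ ≤ C + C := add_le_add (h.bd d) (h'.bd d)
      _ = 2 * C := by ring

theorem pf_IXX (h1 : T_IGT) : T_IXX := by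
  intro K
  obtain ⟨C₁, hC₁, h2⟩ := h1 K
  refine ⟨C₁, hC₁, fun η hη hη1 => ?_⟩
  obtain ⟨b, hb, h3⟩ := h2 η hη hη1
  refine ⟨b, hb, fun y₀ A δ C H₀ hy hδ hδb hC => ?_⟩
  obtain ⟨X₀, h4⟩ := h3 y₀ (A + 1) δ (2 * C) H₀ hy hδ hδb (by positivity)
  refine ⟨max X₀ (Real.exp 1), fun X hX I _ _ P U Y l l' hU hP hH hY hYX hl hl' hQ => ?_⟩
  have hX0 : X₀ ≤ X := (le_max_left _ _).trans hX
  have hX1 : Real.exp 1 ≤ X := (le_max_right _ _).trans hX
  have hXp : 0 < X := (Real.exp_pos 1).trans_le hX1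
  have hlog : 1 ≤ Real.log X := by
    rw [Real.le_log_iff_exp_le hXp]
    exact hX1
  have hA : ∀ s : ℝ, |s| = 1 → s ^ 2 = 1 →
      (1 - η) * (EE X y₀ (X ^ δ) (U.image P) * (QB (X ^ δ) Y l l + QB (X ^ δ) Y l' l')) -
        X / Real.log X ^ (A + 1) ≤
      ∑ n ∈ OS X y₀ (X ^ δ) (U.image P),
        (LG (X ^ δ) Y l P n + s * LG (X ^ δ) Y l' P n) ^ 2 ∧
      ∑ n ∈ OS X y₀ (X ^ δ) (U.image P),
        (LG (X ^ δ) Y l P n + s * LG (X ^ δ) Y l' P n) ^ 2 ≤
      (1 + η) * (EE X y₀ (X ^ δ) (U.image P) * (QB (X ^ δ) Y l l + QB (X ^ δ) Y l' l')) +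
        X / Real.log X ^ (A + 1) := by
    intro s hs hs2
    have h5 := h4 X hX0 I P U Y (fun d => l d + s * l' d) hU hP hH hY hYX
      (ixx_WG U _ Y C s l l' hs hl hl')
    rw [ixx_QB, ixx_comm _ _ l l', hQ, hs2, add_zero, mul_zero, add_zero, one_mul] at h5
    simp only [ixx_LG] at h5
    exact h5
  obtain ⟨a1, a2⟩ := hA 1 abs_one (one_pow 2)
  obtain ⟨b1, b2⟩ := hA (-1) (by rw [abs_neg, abs_one]) (by norm_num)
  have hT : ∑ n ∈ OS X y₀ (X ^ δ) (U.image P),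
        (LG (X ^ δ) Y l P n + 1 * LG (X ^ δ) Y l' P n) ^ 2 -
      ∑ n ∈ OS X y₀ (X ^ δ) (U.image P),
        (LG (X ^ δ) Y l P n + (-1) * LG (X ^ δ) Y l' P n) ^ 2 =
      4 * ∑ n ∈ OS X y₀ (X ^ δ) (U.image P), LG (X ^ δ) Y l P n * LG (X ^ δ) Y l' P n := by
    rw [mul_sum, ← sum_sub_distrib]
    refine sum_congr rfl fun n _ => ?_
    ring
  have herr : X / Real.log X ^ (A + 1) ≤ X / Real.log X ^ A := by
    apply div_le_div_of_nonneg_left hXp.le (by positivity)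
    exact pow_le_pow_right₀ hlog (Nat.le_succ A)
  set E := EE X y₀ (X ^ δ) (U.image P) * (QB (X ^ δ) Y l l + QB (X ^ δ) Y l' l') with hE
  set e := X / Real.log X ^ (A + 1) with he
  rw [abs_le]
  constructor <;> nlinarith

end Pool.Agent.H89.RP
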